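import Pool.Agent.Lib_helper12.NZ.Defs

/-!
# NZ: evaluation of power series in `ENNReal`, and the bracket calculus definitions
-/

set_option autoImplicit false

open Finset
open scoped ENNReal

namespace Pool.Agent.Lib_helper12.NZ

/-! ## Evaluation -/

section evaluation
open PowerSeries

/-- the value `∑' n, f (a_n) y^n` in `[0,∞]` -/
noncomputable def evf {R : Type*} [CommSemiring R] (f : R →+* ℝ≥0∞) (y : ℝ≥0∞)
    (F : PowerSeries R) : ℝ≥0∞ := ∑' n, f (coeff n F) * y ^ n

theorem evf_C {R : Type*} [CommSemiring R] (f : R →+* ℝ≥0∞) (y : ℝ≥0∞) (a : R) :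
    evf f y (C a) = f a := by
  unfold evf
  rw [tsum_eq_single 0]
  · simp
  · intro n hn
    simp [PowerSeries.coeff_C, hn]

theorem evf_X {R : Type*} [CommSemiring R] (f : R →+* ℝ≥0∞) (y : ℝ≥0∞) :
    evf f y (X : PowerSeries R) = y := by
  unfold evf
  rw [tsum_eq_single 1]
  · simp
  · intro n hn
    simp [PowerSeries.coeff_X, hn]

theorem evf_add {R : Type*} [CommSemiring R] (f : R →+* ℝ≥0∞) (y : ℝ≥0∞)
    (F G : PowerSeries R) : evf f y (F + G) = evf f y F + evf f y G := by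
  unfold evf
  rw [← ENNReal.tsum_add]
  congr 1
  ext n
  simp [add_mul]

theorem evf_mul {R : Type*} [CommSemiring R] (f : R →+* ℝ≥0∞) (y : ℝ≥0∞)
    (F G : PowerSeries R) : evf f y (F * G) = evf f y F * evf f y G := by
  unfold evf
  have h1 : (∑' n, f (coeff n F) * y ^ n) * (∑' n, f (coeff n G) * y ^ n) =
      ∑' p : ℕ × ℕ, f (coeff p.1 F) * y ^ p.1 * (f (coeff p.2 G) * y ^ p.2) := by
    rw [ENNReal.tsum_prod (f := fun a b => f (coeff a F) * y ^ a * (f (coeff b G) * y ^ b)),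
      ← ENNReal.tsum_mul_right]
    congr 1
    ext a
    rw [ENNReal.tsum_mul_left]
  rw [h1, ← Equiv.tsum_eq (Finset.HasAntidiagonal.sigmaAntidiagonalEquivProd (A := ℕ)), ENNReal.tsum_sigma']
  congr 1
  ext n
  rw [tsum_fintype, PowerSeries.coeff_mul, map_sum, Finset.sum_mul, ← Finset.sum_coe_sort]
  apply Finset.sum_congr rfl
  rintro ⟨⟨a, b⟩, hab⟩ _
  have hab' : a + b = n := by simpa using hab
  simp only [HasAntidiagonal.sigmaAntidiagonalEquivProd_apply, map_mul]
  rw [← hab', pow_add]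
  ring

/-- evaluation as a semiring homomorphism `R⟦X⟧ → [0,∞]`, `X ↦ y` -/
noncomputable def evc {R : Type*} [CommSemiring R] (f : R →+* ℝ≥0∞) (y : ℝ≥0∞) :
    PowerSeries R →+* ℝ≥0∞ where
  toFun := evf f y
  map_one' := by
    have := evf_C f y (1 : R)
    simpa using this
  map_zero' := by
    have := evf_C f y (0 : R)
    simpa using this
  map_add' := evf_add f y
  map_mul' := evf_mul f y

theorem evc_apply {R : Type*} [CommSemiring R] (f : R →+* ℝ≥0∞) (y : ℝ≥0∞) (F : PowerSeries R) :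
    evc f y F = ∑' n, f (coeff n F) * y ^ n := rfl

/-- evaluation of a series in `x` with natural coefficients -/
noncomputable def ev (x : ℝ≥0∞) : PowerSeries ℕ →+* ℝ≥0∞ := evc (Nat.castRingHom ℝ≥0∞) x

/-- evaluation of a series in `y` (outer) and `x` (inner) -/
noncomputable def ev2 (x y : ℝ≥0∞) : PowerSeries (PowerSeries ℕ) →+* ℝ≥0∞ := evc (ev x) y

/-- `y_h(x) = F_h(x, 1/3)` -/
noncomputable def yh (h : ℕ) (x : ℝ≥0∞) : ℝ≥0∞ := ev2 x (1 / 3) (Fh ℕ h)

/-- `g_h(x) = G_{h,0}(x)` -/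
noncomputable def gh (h : ℕ) (x : ℝ≥0∞) : ℝ≥0∞ := ev x (coeff 0 (Gh ℕ h))

/-- total weight of closed walks of height `< H` -/
noncomputable def Kw (H : ℕ) (x : ℝ≥0∞) (l : List Bool) : ℝ≥0∞ :=
  ∑' m, (wk H m l : ℝ≥0∞) * x ^ m

end evaluation

/-! ## The frozen counting sequence -/

/-- the pattern `12534` -/
def pat : Equiv.Perm (Fin 5) := Equiv.swap 2 4 * Equiv.swap 3 4

/-- number of permutations of length `n` avoiding `pat` -/
noncomputable def av (n : ℕ) : ℕ :=
  Nat.card {σ : Equiv.Perm (Fin n) //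
    ¬ ∃ f : Fin 5 ↪o Fin n, ∀ i j : Fin 5, pat i < pat j ↔ σ (f i) < σ (f j)}

/-- the growth rate `(1+√8)^2` -/
noncomputable def muR : ℝ := (1 + √8) ^ 2

/-! ## Reading a permutation -/

/-- values below `n` not in `L` -/
def unr (n : ℕ) (L : List ℕ) : Finset ℕ := (Finset.range n).filter (· ∉ L)

/-- a read quadruple `x1 x2 b a` with an unread value between `a` and `b` -/
def Bad (n : ℕ) (L : List ℕ) : Prop :=
  ∃ x1 x2 b a c : ℕ, [x1, x2, b, a].Sublist L ∧ x1 < x2 ∧ x2 < a ∧ a < c ∧ c < b ∧ c ∈ unr n L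

/-- all prefixes are good -/
def HG (n : ℕ) (L : List ℕ) : Prop := ∀ L' : List ℕ, L' <+: L → ¬ Bad n L'

/-- `L` avoids `12534` -/
def Avd (L : List ℕ) : Prop :=
  ∀ x1 x2 b a c : ℕ, [x1, x2, b, a, c].Sublist L → ¬ (x1 < x2 ∧ x2 < a ∧ a < c ∧ c < b)

/-- number of completions of `L` to an avoider -/
noncomputable def cpl (n : ℕ) (L : List ℕ) : ℕ :=
  Nat.card {w : List ℕ // w.Nodup ∧ w.toFinset = unr n L ∧ Avd (L ++ w)}

/-- the current minimum (`n` if nothing is read) -/
def mn (n : ℕ) (L : List ℕ) : ℕ := L.foldr min n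

/-- the least read value that is not a left-to-right minimum (`n` if there is none) -/
noncomputable def xx (n : ℕ) (L : List ℕ) : ℕ :=
  sInf ({x2 | ∃ x1, x1 < x2 ∧ [x1, x2].Sublist L} ∪ {n})

/-- the value `v` may be read next -/
def Alw (n : ℕ) (L : List ℕ) (v : ℕ) : Prop :=
  ∀ x1 x2 b c : ℕ, [x1, x2, b].Sublist L → x1 < x2 → x2 < v → v < c → c < b → c ∉ unr n L

/-- number of unread values above the minimum -/
def YY (n : ℕ) (L : List ℕ) : ℕ := ((unr n L).filter (mn n L < ·)).card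

/-- the unread values above `xx`, sorted increasingly -/
noncomputable def zon (n : ℕ) (L : List ℕ) : List ℕ :=
  ((unr n L).filter (xx n L < ·)).sort (· ≤ ·)

open Classical in
/-- the flags of the unread values above `xx` -/
noncomputable def flg (n : ℕ) (L : List ℕ) : List Bool := (zon n L).map fun v => decide (Alw n L v)

/-! ## Bracket calculus -/

/-- `δ` is a derivation -/
structure IsDer {A : Type*} [CommRing A] (δ : A → A) : Prop where
  add : ∀ a b, δ (a + b) = δ a + δ b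
  mul : ∀ a b, δ (a * b) = δ a * b + a * δ b

/-- `T A v`, where `A` is the companion matrix of `b 0, ..., b m` and `T = b m` -/
def opA {A : Type*} [CommRing A] (m : ℕ) (b : ℕ → A) (v : Fin m → A) : Fin m → A :=
  fun i => if h : i.1 + 1 < m then b m * v ⟨i.1 + 1, h⟩ else - ∑ j : Fin m, b j * v j

/-- `E_k v = T v' - T A v - k T' v` -/
def opE {A : Type*} [CommRing A] (δ : A → A) (m : ℕ) (b : ℕ → A) (k : ℕ) (v : Fin m → A) :
    Fin m → A :=
  fun i => b m * δ (v i) - opA m b v i - (k : A) * δ (b m) * v i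

/-- the bracket `v^{[k]} = T^k (d/dz - A)^k v` -/
def brk {A : Type*} [CommRing A] (δ : A → A) (m : ℕ) (b : ℕ → A) : ℕ → (Fin m → A) → (Fin m → A)
  | 0, v => v
  | k + 1, v => opE δ m b k (brk δ m b k v)

section arithmetic
open PowerSeries

/-- the derivative of integer power series -/
noncomputable def dS (R : Type*) [CommSemiring R] : PowerSeries R → PowerSeries R :=
  ⇑(PowerSeries.derivative R)

/-- the derivative of polynomials -/
noncomputable def dP (R : Type*) [CommSemiring R] : Polynomial R → Polynomial R :=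
  ⇑(Polynomial.derivative (R := R))

/-- `b 0, ..., b m` is a minimal linear differential equation for `f` -/
structure Rel (f : PowerSeries ℤ) (m : ℕ) (b : ℕ → Polynomial ℤ) : Prop where
  pos : 0 < m
  lead : b m ≠ 0
  rel : ∑ i ∈ range (m + 1), (b i : PowerSeries ℤ) * (dS ℤ)^[i] f = 0
  min : ∀ c : ℕ → Polynomial ℤ,
    ∑ i ∈ range m, (c i : PowerSeries ℤ) * (dS ℤ)^[i] f = 0 → ∀ i < m, c i = 0

/-- the vector `(f, f', ..., f^(m-1))` -/
noncomputable def Yv (f : PowerSeries ℤ) (m : ℕ) : Fin m → PowerSeries ℤ :=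
  fun i => (dS ℤ)^[i.1] f

/-- matrix with columns `P^{[0]}, ..., P^{[m-1]}` -/
noncomputable def Smat (m : ℕ) (b : ℕ → Polynomial ℤ) (P : Fin m → Polynomial ℤ) :
    Matrix (Fin m) (Fin m) (Polynomial ℤ) :=
  Matrix.of fun i j => brk (dP ℤ) m b j.1 P i

/-- `ρ` is a point where the coefficient pair `(b_i, b_m)` violates the regularity condition -/
def Irr {K : Type*} [Field K] (m i : ℕ) (bm bi : Polynomial K) (ρ : K) : Prop :=
  bm ≠ 0 ∧ bi ≠ 0 ∧ Polynomial.rootMultiplicity ρ bi + (m - i) < Polynomial.rootMultiplicity ρ bm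

end arithmetic

end Pool.Agent.Lib_helper12.NZ
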