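import Mathlib

/-!
# NZ: a single pattern whose avoidance class is not D-finite.  Definitions.
-/

set_option autoImplicit false

open Finset

namespace Pool.Agent.Lib_helper12.NZ

/-! ## Walks (stack states are lists of booleans, head = lowest unread value above x) -/

/-- turn the first `true` into `false` -/
def kill : List Bool → List Bool
  | [] => []
  | true :: l => false :: l
  | false :: l => false :: kill l

/-- number of `true` entries -/
def nt (l : List Bool) : ℕ := l.count true

/-- read the `j`-th allowed entry -/
def pop (j : ℕ) (l : List Bool) : List Bool := (kill^[j] l).tail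

/-- new minimum with `g` unread values above it -/
def push (g : ℕ) (l : List Bool) : List Bool := List.replicate g true ++ l

/-- number of completions: `r` values still to be read, `Y` unread values above the minimum,
`l` = flags of the unread values above the second threshold -/
def cmp : ℕ → ℕ → List Bool → ℕ
  | 0, Y, l => if Y = 0 ∧ l = [] then 1 else 0
  | r + 1, Y, l => (∑ Y' ∈ Icc Y r, cmp r Y' l) +
      (if Y = 0 then 0 else
        (∑ g ∈ range (Y - l.length), cmp r (Y - 1) (push g l)) +
          ∑ j ∈ range (nt l), cmp r (Y - 1) (pop j l))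

/-- completions along which `Y` stays `< H` -/
def cmpB (H : ℕ) : ℕ → ℕ → List Bool → ℕ
  | 0, Y, l => if Y = 0 ∧ l = [] then 1 else 0
  | r + 1, Y, l => (∑ Y' ∈ (Icc Y r).filter (· < H), cmpB H r Y' l) +
      (if Y = 0 then 0 else
        (∑ g ∈ range (Y - l.length), cmpB H r (Y - 1) (push g l)) +
          ∑ j ∈ range (nt l), cmpB H r (Y - 1) (pop j l))

/-- completions along which `Y` reaches a value `≥ H` (started at `Y < H`) -/
def cmpA (H : ℕ) : ℕ → ℕ → List Bool → ℕ
  | 0, _, _ => 0
  | r + 1, Y, l => (∑ Y' ∈ Icc Y r, if Y' < H then cmpA H r Y' l else cmp r Y' l) +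
      (if Y = 0 then 0 else
        (∑ g ∈ range (Y - l.length), cmpA H r (Y - 1) (push g l)) +
          ∑ j ∈ range (nt l), cmpA H r (Y - 1) (pop j l))

/-- number of `m`-step walks from `l` to `[]` with all lengths `< H` -/
def wk (H : ℕ) : ℕ → List Bool → ℕ
  | 0, l => if l = [] then 1 else 0
  | m + 1, l => (∑ g ∈ range (H - l.length), wk H m (push g l)) +
      ∑ j ∈ range (nt l), wk H m (pop j l)

/-! ## The height series -/

section series
open PowerSeries

/-- one step of the height recursion (series in `y` over `R ∋ x`), `G = Γ - 1` -/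
noncomputable def stp {R : Type*} [CommSemiring R] (x : R) (G : PowerSeries R) : PowerSeries R :=
  PowerSeries.mk fun t => x * ((if t = 0 then 1 + coeff 0 G else 0) +
    ∑ s ∈ range (t + 2), coeff s G)

/-- `1 / (1 - F)` for a series `F` (in `y`) over `R⟦x⟧` all of whose coefficients are divisible by `x` -/
noncomputable def geo {R : Type*} [CommSemiring R] (F : PowerSeries (PowerSeries R)) :
    PowerSeries (PowerSeries R) :=
  PowerSeries.mk fun t => PowerSeries.mk fun n =>
    ∑ k ∈ range (n + 1), coeff n (coeff t (F ^ k))

/-- the height series `F_h` (outer variable `y`, inner variable `x`) -/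
noncomputable def Fh (R : Type*) [CommSemiring R] : ℕ → PowerSeries (PowerSeries R)
  | 0 => 0
  | h + 1 => stp X (Fh R h * geo (Fh R h))

/-- `G_h = F_h / (1 - F_h)` -/
noncomputable def Gh (R : Type*) [CommSemiring R] (h : ℕ) : PowerSeries (PowerSeries R) :=
  Fh R h * geo (Fh R h)

/-- `Γ_{h,0}`, the constant coefficient in `y` of `1/(1-F_h)`, a series in `x` -/
noncomputable def Gam0 (R : Type*) [CommSemiring R] (h : ℕ) : PowerSeries R :=
  coeff 0 (geo (Fh R h))

/-- Tutte numbers `1, 3, 12, 56, ...` (`gT 1 = 1`), as rationals; `(n+2) g_n = 4 (2n-1) g_{n-1}` -/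
def gT : ℕ → ℚ
  | 0 => 3 / 4
  | n + 1 => 4 * (2 * n + 1) / (n + 3) * gT n

end series

end Pool.Agent.Lib_helper12.NZ
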